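import Mathlib
import Pool.Agent.R821.Precompact
import Pool.Agent.R821.TwoTorsion

/-!
# A closed `G_δ` subgroup of a precompact abelian group which is not `N`-characterized

Let `P` be the group of all functions from the binary tree to `ℤ/2` and for a branch `x` of the tree
let `t x ∈ P` be the indicator function of the nodes on `x`. The group `X` consists of the pairs
`(f, S)`, where `f` is a finitely supported function from the tree to `ℤ/2` and `S` is a finitely
supported function from the set of branches to `ℤ/2`. It has the topology induced by the embedding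
`(f, S) ↦ (f + ∑ t x (sum over x ∈ S), S)` into the product of `P` with the power `(ℤ/2)^(branches)`.
The subgroup `F` of the pairs `(f, 0)` is closed, it is a `G_δ` set since its complement is the union of
countably many preimages of compact subsets of `P`, and it is dense enough: if a countable set of
characters vanishes on `F`, then it also vanishes at all pairs `(0, S)` such that `S` misses some
countable set of branches.
-/

set_option autoImplicit false

open Filter Topology Pointwise

namespace Pool.Agent.Results.MP_f24352_gt.NotNCharacterized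

/-- nodes of the binary tree: finite binary words -/
abbrev Node : Type := Σ n : ℕ, (Fin n → Bool)

/-- branches of the binary tree -/
abbrev Br : Type := ℕ → Bool

/-- the initial segment of length `n` of a branch -/
def seg (x : Br) (n : ℕ) : Node := ⟨n, fun i => x i⟩

/-- the branch `x` passes through the node `s` -/
def Thru (x : Br) (s : Node) : Prop := (fun i : Fin s.1 => x i) = s.2

/-- the indicator function of the set of nodes on the branch `x` -/
noncomputable def t (x : Br) : Node → ZMod 2 := fun s => open Classical in if Thru x s then 1 else 0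

theorem isClopen_thru (s : Node) : IsClopen {x : Br | Thru x s} := by
  have h1 : Continuous fun x : Br => (fun i : Fin s.1 => x i) := by fun_prop
  exact (isClopen_discrete ({s.2} : Set (Fin s.1 → Bool))).preimage h1

theorem continuous_t : Continuous t := by
  classical
  refine continuous_pi fun s => ?_
  have h1 : Continuous fun x : Br => (fun i : Fin s.1 => x i) := by fun_prop
  have h2 : Continuous fun y : Fin s.1 → Bool => if y = s.2 then (1 : ZMod 2) else 0 :=
    continuous_of_discreteTopology
  have h3 : (fun x : Br => t x s) =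
      (fun y : Fin s.1 → Bool => if y = s.2 then (1 : ZMod 2) else 0) ∘
        fun x : Br => (fun i : Fin s.1 => x i) := by
    funext x
    by_cases h : Thru x s
    · have h' : (fun i : Fin s.1 => x i) = s.2 := h
      simp only [t, h, if_true, Function.comp_apply, h']
    · have h' : ¬ (fun i : Fin s.1 => x i) = s.2 := h
      simp only [t, h, if_false, Function.comp_apply, h']
  rw [h3]
  exact h2.comp h1

theorem thru_seg (x : Br) (n : ℕ) : Thru x (seg x n) := rfl

/-- the homomorphism `S ↦ ∑ t x` -/
noncomputable def T : (Br →₀ ZMod 2) →ₗ[ZMod 2] (Node → ZMod 2) :=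
  Finsupp.linearCombination (ZMod 2) t

/-- the group `X` -/
abbrev X : Type := (Node →₀ ZMod 2) × (Br →₀ ZMod 2)

/-- the compact group which contains `X` -/
abbrev C : Type := (Node → ZMod 2) × (Br → ZMod 2)

/-- the embedding of `X` into a compact group -/
noncomputable def φ : X →+ C where
  toFun p := ((p.1 : Node → ZMod 2) + T p.2, (p.2 : Br → ZMod 2))
  map_zero' := by simp
  map_add' p q := by
    ext s
    · simp only [Prod.fst_add, Prod.snd_add, Finsupp.coe_add, map_add, Pi.add_apply]
      ring
    · simp

theorem φ_injective : Function.Injective φ := by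
  rintro ⟨f, S⟩ ⟨g, S'⟩ h
  have h2 : (S : Br → ZMod 2) = S' := congrArg Prod.snd h
  have h2' : S = S' := DFunLike.coe_injective h2
  subst h2'
  have h1 : (f : Node → ZMod 2) + T S = (g : Node → ZMod 2) + T S := congrArg Prod.fst h
  have h3 : (f : Node → ZMod 2) = g := add_right_cancel h1
  rw [DFunLike.coe_injective h3]

/-- the topology of `X` -/
noncomputable abbrev topX : TopologicalSpace X := TopologicalSpace.induced φ inferInstance

/-- the tuples of `m` branches exactly one of which passes through the node `s` -/
def D (m : ℕ) (s : Node) : Set (Fin m → Br) :=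
  {x | ∃ j0, Thru (x j0) s ∧ ∀ j, j ≠ j0 → ¬ Thru (x j) s}

theorem isClosed_D (m : ℕ) (s : Node) : IsClosed (D m s) := by
  have h1 : D m s = ⋃ j0 : Fin m, ({x | Thru (x j0) s} ∩ ⋂ j : Fin m, {x | j ≠ j0 → ¬ Thru (x j) s}) := by
    ext x
    simp only [D, Set.mem_ofPred_eq, Set.mem_iUnion, Set.mem_inter_iff, Set.mem_iInter]
  rw [h1]
  refine isClosed_iUnion_of_finite fun j0 => ?_
  refine IsClosed.inter ?_ (isClosed_iInter fun j => ?_)
  · have h2 : Continuous fun x : Fin m → Br => x j0 := continuous_apply j0
    exact (isClopen_thru s).isClosed.preimage h2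
  · by_cases hj : j = j0
    · simp [hj]
    · simp only [ne_eq, hj, not_false_eq_true, forall_const]
      have h2 : Continuous fun x : Fin m → Br => x j := continuous_apply j
      exact ((isClopen_thru s).compl.isClosed).preimage h2

/-- the compact subset of `P` of the functions `f + ∑ t (x j)` with `x ∈ D m s` -/
def L (f : Node →₀ ZMod 2) (m : ℕ) (s : Node) : Set (Node → ZMod 2) :=
  (fun x : Fin m → Br => (f : Node → ZMod 2) + ∑ j, t (x j)) '' D m s

theorem isClosed_L (f : Node →₀ ZMod 2) (m : ℕ) (s : Node) : IsClosed (L f m s) := by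
  refine IsCompact.isClosed (IsCompact.image (isClosed_D m s).isCompact ?_)
  have h2 : ∀ j : Fin m, Continuous fun x : Fin m → Br => t (x j) := fun j =>
    continuous_t.comp (continuous_apply j)
  have h3 : Continuous fun x : Fin m → Br => ∑ j, t (x j) :=
    continuous_finsetSum Finset.univ fun j _ => h2 j
  exact continuous_const.add h3

theorem seg_injective (x : Br) : Function.Injective (seg x) := fun _ _ h => congrArg Sigma.fst h

theorem thru_of_seg {x y : Br} {s : Node} {n : ℕ} (hn : s.1 ≤ n) (h1 : Thru x s)
    (h2 : Thru y (seg x n)) : Thru y s := by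
  have h3 : ∀ i, i < n → y i = x i := fun i hi => congrFun h2 ⟨i, hi⟩
  have h4 : ∀ i (hi : i < s.1), x i = s.2 ⟨i, hi⟩ := fun i hi => congrFun h1 ⟨i, hi⟩
  funext i
  rw [← h4 i i.2]
  exact h3 i (lt_of_lt_of_le i.2 hn)

/-- the members of `L f m s` are not finitely supported -/
theorem not_mem_L (f g : Node →₀ ZMod 2) (m : ℕ) (s : Node) : (g : Node → ZMod 2) ∉ L f m s := by
  classical
  rintro ⟨x, ⟨j0, hj0, hj⟩, hx⟩
  have h1 : ∀ n, s.1 ≤ n → (g - f) (seg (x j0) n) = 1 := by
    intro n hn
    have h2 : (∑ j, t (x j)) (seg (x j0) n) = 1 := by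
      rw [Finset.sum_apply, Finset.sum_eq_single j0]
      · have := thru_seg (x j0) n
        simp only [t, this, if_true]
      · intro j _ hjj
        have h3 : ¬ Thru (x j) (seg (x j0) n) := fun h => hj j hjj (thru_of_seg hn hj0 h)
        simp only [t, h3, if_false]
      · intro h; exact absurd (Finset.mem_univ _) h
    have h3 := congrFun hx (seg (x j0) n)
    change f (seg (x j0) n) + (∑ j, t (x j)) (seg (x j0) n) = g (seg (x j0) n) at h3
    rw [h2] at h3
    rw [Finsupp.sub_apply, ← h3]
    ring
  have h4 : (Set.range fun n : ℕ => seg (x j0) (s.1 + n)) ⊆ ((g - f).support : Set Node) := by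
    rintro _ ⟨n, rfl⟩
    rw [Finset.mem_coe, Finsupp.mem_support_iff, h1 _ (Nat.le_add_right _ _)]
    exact one_ne_zero
  have h5 : (Set.range fun n : ℕ => seg (x j0) (s.1 + n)).Infinite :=
    Set.infinite_range_of_injective fun a b h => by
      have := seg_injective _ h
      omega
  exact h5 ((g - f).support.finite_toSet.subset h4)

theorem zmod2_ne_zero (a : ZMod 2) (h : a ≠ 0) : a = 1 := by
  fin_cases a
  · exact absurd rfl h
  · rfl

/-- if `S ≠ 0` then `f + T S` belongs to some `L f m s` -/
theorem mem_L (f : Node →₀ ZMod 2) (S : Br →₀ ZMod 2) (hS : S ≠ 0) :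
    ∃ m s, (f : Node → ZMod 2) + T S ∈ L f m s := by
  classical
  obtain ⟨x0, hx0⟩ := Finsupp.support_nonempty_iff.2 hS
  have h1 : ∀ y : Br, ∃ k : ℕ, y ≠ x0 → y k ≠ x0 k := by
    intro y
    by_cases h : y = x0
    · exact ⟨0, fun h' => absurd h h'⟩
    · obtain ⟨k, hk⟩ := Function.ne_iff.1 h
      exact ⟨k, fun _ => hk⟩
  choose k hk using h1
  let n : ℕ := S.support.sup k + 1
  let e : Fin S.support.card ≃ S.support := S.support.equivFin.symm
  refine ⟨S.support.card, seg x0 n, fun j => (e j : Br), ⟨e.symm ⟨x0, hx0⟩, ?_, ?_⟩, ?_⟩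
  · change Thru (e (e.symm ⟨x0, hx0⟩) : Br) (seg x0 n)
    rw [Equiv.apply_symm_apply]
    exact thru_seg x0 n
  · intro j hj hthru
    have h2 : (e j : Br) ≠ x0 := by
      intro h
      apply hj
      rw [Equiv.eq_symm_apply]
      exact Subtype.ext h
    have h3 := hk _ h2
    have h4 : k (e j : Br) < n := by
      have : k (e j : Br) ≤ S.support.sup k := Finset.le_sup (e j).2
      omega
    exact h3 (congrFun hthru ⟨_, h4⟩)
  · rw [T, Finsupp.linearCombination_apply, Finsupp.sum]
    have h5 : ∑ a ∈ S.support, S a • t a = ∑ a ∈ S.support, t a := by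
      refine Finset.sum_congr rfl fun a ha => ?_
      rw [zmod2_ne_zero _ (Finsupp.mem_support_iff.1 ha), one_smul]
    rw [h5, ← Finset.sum_coe_sort S.support]
    change (f : Node → ZMod 2) + ∑ j, t (e j : Br) = _
    rw [e.sum_comp (fun a : S.support => t (a : Br))]

/-- the subgroup `F` of the pairs `(f, 0)` -/
noncomputable def F : AddSubgroup X := AddSubgroup.prod ⊤ ⊥

theorem mem_F {p : X} : p ∈ F ↔ p.2 = 0 := by
  rw [F, AddSubgroup.mem_prod]
  simp

/-- a character of `X` depends on finitely many coordinates only -/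
theorem char_finite (v : X →+ UnitAddCircle) (hv : @Continuous X _ topX _ v) :
    ∃ (E : Finset Node) (I : Finset Br), ∀ p : X, (∀ s ∈ E, (φ p).1 s = 0) →
      (∀ x ∈ I, p.2 x = 0) → v p = 0 := by
  classical
  let _ := topX
  have h1 : v ⁻¹' {y | ‖y‖ < 1 / 2} ∈ 𝓝 (0 : X) := by
    refine hv.continuousAt.preimage_mem_nhds ?_
    rw [map_zero]
    exact R821.ball_mem_nhds
  have hind : IsInducing φ := ⟨rfl⟩
  rw [hind.nhds_eq_comap, map_zero] at h1
  obtain ⟨W, hW, hWv⟩ := h1
  rw [Prod.zero_eq_mk, nhds_prod_eq] at hW
  obtain ⟨W1, hW1, W2, hW2, h12⟩ := Filter.mem_prod_iff.1 hW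
  rw [nhds_pi, Filter.mem_pi] at hW1 hW2
  obtain ⟨E, hE, U, hU, hEU⟩ := hW1
  obtain ⟨I, hI, U', hU', hIU⟩ := hW2
  refine ⟨hE.toFinset, hI.toFinset, fun p hp1 hp2 => ?_⟩
  refine R821.circle_eq_zero ?_ ?_
  · rw [← map_add]
    have : p + p = 0 := by
      ext s
      · exact CharTwo.add_self_eq_zero _
      · exact CharTwo.add_self_eq_zero _
    rw [this, map_zero]
  · have h3 : φ p ∈ W := by
      refine h12 ⟨hEU ?_, hIU ?_⟩
      · intro s hs
        rw [hp1 s (hE.mem_toFinset.2 hs)]
        exact mem_of_mem_nhds (hU s)
      · intro x hx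
        have h4 : (φ p).2 x = 0 := hp2 x (hI.mem_toFinset.2 hx)
        rw [h4]
        exact mem_of_mem_nhds (hU' x)
    exact hWv h3

/-- **Negative answer to Q1.** There are a precompact (that is, totally bounded and Hausdorff) abelian
group `X` and a closed subgroup `F` of `X` which is a `G_δ` set in `X` but which is not the
intersection of the kernels of countably many continuous characters `X → ℝ/ℤ`. -/
theorem result : ∃ (X : Type) (_ : AddCommGroup X) (_ : TopologicalSpace X)
    (_ : IsTopologicalAddGroup X) (_ : T2Space X) (F : AddSubgroup X),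
    (∀ U ∈ 𝓝 (0 : X), ∃ E : Set X, E.Finite ∧ U + E = Set.univ) ∧
    IsClosed (F : Set X) ∧ IsGδ (F : Set X) ∧
    ∀ v : ℕ → (X →+ UnitAddCircle), (∀ n, Continuous (v n)) → F ≠ ⨅ n, (v n).ker := by
  classical
  let _ := topX
  have hind : IsInducing φ := ⟨rfl⟩
  have htg : IsTopologicalAddGroup X := topologicalAddGroup_induced φ
  have hT2 : T2Space X := by
    have hemb : IsEmbedding φ := ⟨hind, φ_injective⟩
    exact hemb.t2Space
  refine ⟨X, inferInstance, inferInstance, htg, hT2, F,
    fun U hU => R821.totBdd_of_inducing φ hind U hU, ?_, ?_, ?_⟩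
  · have h1 : (F : Set X) = φ ⁻¹' (Prod.snd ⁻¹' {0}) := by
      ext p
      rw [SetLike.mem_coe, mem_F]
      change p.2 = 0 ↔ (p.2 : Br → ZMod 2) = 0
      exact DFunLike.coe_injective.eq_iff.symm
    rw [h1]
    exact (isClosed_singleton.preimage continuous_snd).preimage hind.continuous
  · have h1 : (F : Set X) = ⋂ (a : (Node →₀ ZMod 2) × ℕ × Node),
        (φ ⁻¹' (Prod.fst ⁻¹' (L a.1 a.2.1 a.2.2)))ᶜ := by
      ext p
      rw [SetLike.mem_coe, mem_F, Set.mem_iInter]
      constructor
      · intro hp a ha
        have h2 : (φ p).1 ∈ L a.1 a.2.1 a.2.2 := ha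
        have h3 : (φ p).1 = (p.1 : Node → ZMod 2) := by
          change (p.1 : Node → ZMod 2) + T p.2 = _
          rw [hp, map_zero, add_zero]
        rw [h3] at h2
        exact not_mem_L _ _ _ _ h2
      · intro hp
        by_contra hne
        obtain ⟨m, s, hms⟩ := mem_L p.1 p.2 hne
        exact hp ⟨p.1, m, s⟩ hms
    rw [h1]
    refine IsGδ.iInter_of_isOpen fun a => ?_
    exact (((isClosed_L _ _ _).preimage continuous_fst).preimage hind.continuous).isOpen_compl
  · intro v hv hF
    choose E I hEI using fun n => char_finite (v n) (hv n)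
    have hcount : (⋃ n, (I n : Set Br)).Countable := Set.countable_iUnion fun n => (I n).countable_toSet
    obtain ⟨x, hx⟩ : ∃ x, x ∉ ⋃ n, (I n : Set Br) := by
      by_contra hcon
      push Not at hcon
      have h1 : (⋃ n, (I n : Set Br)) = Set.univ := Set.eq_univ_of_forall hcon
      rw [h1] at hcount
      have hc2 : Countable Br := Set.countable_univ_iff.1 hcount
      obtain ⟨g, hg⟩ := exists_surjective_nat Br
      obtain ⟨k, hk⟩ := hg fun n => !(g n n)
      have h2 := congrFun hk k
      simp at h2
    have hz : ((0, Finsupp.single x 1) : X) ∈ F := by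
      rw [hF, AddSubgroup.mem_iInf]
      intro n
      rw [AddMonoidHom.mem_ker]
      let f : Node →₀ ZMod 2 := Finsupp.onFinset (E n) (fun s => if s ∈ E n then - t x s else 0)
        (fun s hs => by by_contra h; simp [h] at hs)
      have h1 : v n (f, Finsupp.single x 1) = 0 := by
        refine hEI n _ ?_ ?_
        · intro s hs
          change f s + T (Finsupp.single x 1) s = 0
          rw [T, Finsupp.linearCombination_single, one_smul]
          change (if s ∈ E n then - t x s else 0) + t x s = 0
          rw [if_pos hs, neg_add_cancel]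
        · intro y hy
          change Finsupp.single x 1 y = 0
          rw [Finsupp.single_apply, if_neg]
          rintro rfl
          exact hx (Set.mem_iUnion.2 ⟨n, hy⟩)
      have h2 : v n (f, 0) = 0 := by
        have h3 : ((f, 0) : X) ∈ F := mem_F.2 rfl
        rw [hF, AddSubgroup.mem_iInf] at h3
        exact h3 n
      have h4 : ((0, Finsupp.single x 1) : X) = (f, Finsupp.single x 1) - (f, 0) := by
        simp
      rw [h4, map_sub, h1, h2, sub_zero]
    have h5 : Finsupp.single x (1 : ZMod 2) = 0 := mem_F.1 hz
    exact one_ne_zero (Finsupp.single_eq_zero.1 h5)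

end Pool.Agent.Results.MP_f24352_gt.NotNCharacterized
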